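import Pool.Agent.H95.G1.Words

/-!
# Genus one: coordinates of the 24 cells over a base with two triangles

Every cell `f` lies over one of the two triangles (`true`: with the word `0 1 0 0 2`, `false`: with the word
`0 1 0 0 0 2`).  A point of a cell has weights `al y` (level 0), `be y` (level 1), `p` (cone point) and the position
`T` of a window in the word `vw`.
-/

open Finset

namespace Pool.Agent.H95.G1

open Pool.Agent.H95.TB

/-- coordinates of a point -/
structure ED where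
  b : Bool
  al : Fin 3 → ℝ
  be : Fin 3 → ℝ
  p : ℝ
  T : ℝ

/-- multiplicities of the letters -/
def nv (b : Bool) (y : Fin 3) : ℝ := if y = 0 then (if b = true then 3 else 2) else 1

/-- the word of the window -/
def vw (b : Bool) : List (Fin 3) := if b = true then [0, 1, 0, 2, 0] else [0, 1, 0, 2]

/-- packed slots: `y + 4 * level + 8 * coefficient of the position`, `y = 3` for the cone point -/
def tbL : List (List ℕ) := [
  [4, 5, 12, 6, 3],
  [5, 12, 6, 13, 3],
  [12, 6, 20, 13, 3],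
  [6, 20, 13, 14, 3],
  [20, 28, 13, 14, 3],
  [0, 4, 5, 12, 6],
  [0, 5, 12, 6, 13],
  [0, 12, 6, 20, 13],
  [0, 6, 20, 13, 14],
  [0, 20, 28, 13, 14],
  [0, 1, 5, 6, 13],
  [0, 1, 6, 13, 14],
  [0, 1, 2, 6, 14],
  [4, 5, 12, 6, 3],
  [5, 12, 6, 13, 3],
  [12, 6, 20, 13, 3],
  [6, 20, 13, 14, 3],
  [0, 4, 5, 12, 6],
  [0, 5, 12, 6, 13],
  [0, 12, 6, 20, 13],
  [0, 6, 20, 13, 14],
  [0, 1, 5, 6, 13],
  [0, 1, 6, 13, 14],
  [0, 1, 2, 6, 14]]

/-- packed slot -/
def tb (f : Fin 24) (s : Fin 5) : ℕ := (tbL.getD f.1 []).getD s.1 0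

/-- coordinates of a point of a cell -/
noncomputable def ed (f : Fin 24) (P : Fin 5 → ℝ) : ED where
  b := decide (f.1 < 13)
  al y := ∑ s, if tb f s % 8 = y.1 then P s else 0
  be y := ∑ s, if tb f s % 8 = 4 + y.1 then P s else 0
  p := ∑ s, if tb f s % 8 = 3 then P s else 0
  T := ∑ s, ((tb f s / 8 : ℕ) : ℝ) * P s

namespace ED

variable (d : ED)

/-- column sums -/
noncomputable def c (y : Fin 3) : ℝ := d.al y + d.be y

/-- length of the word at level 1 -/
noncomputable def w : ℝ := ∑ y, nv d.b y * d.be y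

/-- length of the word at level 0 -/
noncomputable def w0 : ℝ := ∑ y, nv d.b y * d.al y

/-- weighted mean position -/
noncomputable def M : ℝ := MM (fun y => d.c y / nv d.b y) d.be (vw d.b)

/-- phase -/
noncomputable def Phi : ℝ := (d.T - d.M / (1 - d.p)) / d.w + (if d.b = true then 1 / 3 else 1 / 2) * (d.c 2 / (1 - d.p))

/-- angle -/
noncomputable def A : ℝ := (if d.b = true then 2 / 3 else 3 / 4) * d.c 2 + d.p * d.Phi / 2

end ED

/-- the vectors of the base -/
noncomputable def Vb (b : Bool) (h : Fin 3 → ℝ) : ℂ × ℂ :=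
  if b = true then (1, φ (h 1 + h 2) (h 2 / 3)) else (φ (h 1 + h 2) (-(h 2 / 4)), 1)

/-- the vectors -/
noncomputable def UE (d : ED) : Fin 3 → ℂ :=
  ![((d.p + d.w / 2 : ℝ) : ℂ) * ee (d.c 2 - ((1 - d.p) * d.T - d.M) / d.w),
    ((d.w0 + d.w / 2 : ℝ) : ℂ) * (ee (3 * d.A) * (Vb d.b fun y => d.c y / (1 - d.p)).1),
    ((d.w0 + d.w / 2 : ℝ) : ℂ) * (ee (4 * d.A) * (Vb d.b fun y => d.c y / (1 - d.p)).2)]

end Pool.Agent.H95.G1
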