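import Pool.Agent.H95.G1.Defs

/-!
# Genus one: words of letters with lengths
-/

open Finset

namespace Pool.Agent.H95.G1

variable {α : Type*}

/-- total length of a word -/
noncomputable def len (l : α → ℝ) (W : List α) : ℝ := (W.map l).sum

lemma len_nil (l : α → ℝ) : len l [] = 0 := rfl

lemma len_cons (l : α → ℝ) (s : α) (W : List α) : len l (s :: W) = l s + len l W := by
  unfold len; rw [List.map_cons, List.sum_cons]

lemma len_append (l : α → ℝ) (V W : List α) : len l (V ++ W) = len l V + len l W := by
  unfold len; rw [List.map_append, List.sum_append]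

lemma len_nonneg {l : α → ℝ} (hl : ∀ s, 0 ≤ l s) (W : List α) : 0 ≤ len l W :=
  List.sum_nonneg fun x hx => by
    rw [List.mem_map] at hx
    obtain ⟨s, _, rfl⟩ := hx
    exact hl s

/-- sum of the middle positions of the letters with the weights `κ` -/
noncomputable def MM (κ l : α → ℝ) : List α → ℝ
  | [] => 0
  | s :: W => κ s * (l s / 2) + (MM κ l W + l s * len κ W)

lemma MM_nil (κ l : α → ℝ) : MM κ l [] = 0 := rfl

lemma MM_cons (κ l : α → ℝ) (s : α) (W : List α) :
    MM κ l (s :: W) = κ s * (l s / 2) + (MM κ l W + l s * len κ W) := rfl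

lemma MM_append (κ l : α → ℝ) (V W : List α) :
    MM κ l (V ++ W) = MM κ l V + MM κ l W + len l V * len κ W := by
  induction V with
  | nil => rw [List.nil_append, MM_nil, len_nil]; ring
  | cons s V ih =>
    rw [List.cons_append, MM_cons, MM_cons, ih, len_append, len_cons]
    ring

/-- rotation of a word -/
lemma MM_rot (κ l : α → ℝ) (V W : List α) :
    MM κ l (V ++ W) - MM κ l (W ++ V) = len l V * len κ (V ++ W) - len l (V ++ W) * len κ V := by
  rw [MM_append, MM_append, len_append, len_append]
  ring

/-- letters of length zero and weight zero can be removed -/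
lemma len_filter {l : α → ℝ} (p : α → Bool) (h : ∀ s, p s = false → l s = 0) (W : List α) :
    len l (W.filter p) = len l W := by
  induction W with
  | nil => rfl
  | cons s W ih =>
    by_cases hp : p s = true
    · rw [List.filter_cons_of_pos hp, len_cons, len_cons, ih]
    · rw [List.filter_cons_of_neg hp, len_cons, ih, h s (by simpa using hp), zero_add]

lemma MM_filter {κ l : α → ℝ} (p : α → Bool) (h : ∀ s, p s = false → l s = 0) (h' : ∀ s, p s = false → κ s = 0)
    (W : List α) : MM κ l (W.filter p) = MM κ l W := by
  induction W with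
  | nil => rfl
  | cons s W ih =>
    by_cases hp : p s = true
    · rw [List.filter_cons_of_pos hp, MM_cons, MM_cons, ih, len_filter p h']
    · rw [List.filter_cons_of_neg hp, MM_cons, ih, h s (by simpa using hp), h' s (by simpa using hp)]
      ring

lemma len_map {β : Type*} (l : β → ℝ) (g : α → β) (W : List α) : len l (W.map g) = len (fun s => l (g s)) W := by
  unfold len; rw [List.map_map]; rfl

lemma MM_map {β : Type*} (κ l : β → ℝ) (g : α → β) (W : List α) :
    MM κ l (W.map g) = MM (fun s => κ (g s)) (fun s => l (g s)) W := by
  induction W with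
  | nil => rfl
  | cons s W ih => rw [List.map_cons, MM_cons, MM_cons, ih, len_map]

end Pool.Agent.H95.G1
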